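import Mathlib

/-!
# Constant Chern holomorphic sectional curvature, unimodular case: basic definitions

`P n` is the ring of polynomials in `x_k = X (inl k)` and `x̄_k = X (inr k)`, `k : Fin n`
(formally independent variables).  `Data n` is the algebraic data of a left-invariant Hermitian
structure in a unitary frame `e_0, …, e_{n-1}` of `V = 𝔤^{1,0}`:
`D y` is the matrix of `D_{e_y} = ∇_{e_y}` on `V` (so `D_{e_y} e_m = ∑ k, D y k m • e_k`), and
`[e_x, e_y] = ∑ k, B x y k • e_k`.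
-/

open MvPolynomial Matrix Finset

namespace Pool.Agent.Lib.ThZ

/-- polynomials in `x_k` (`inl k`) and `x̄_k` (`inr k`) -/
abbrev P (n : ℕ) := MvPolynomial (Fin n ⊕ Fin n) ℂ

/-- the variable `x_k` -/
noncomputable def xx {n : ℕ} (k : Fin n) : P n := X (Sum.inl k)

/-- the variable `x̄_k` -/
noncomputable def yy {n : ℕ} (k : Fin n) : P n := X (Sum.inr k)

/-- `r = ∑ x_k x̄_k` -/
noncomputable def rr (n : ℕ) : P n := ∑ k : Fin n, xx k * yy k

/-- partial derivative with respect to `x̄_k` -/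
noncomputable def dY {n : ℕ} (k : Fin n) : Derivation ℂ (P n) (P n) := pderiv (Sum.inr k)

/-- partial derivative with respect to `x_k` -/
noncomputable def dX {n : ℕ} (k : Fin n) : Derivation ℂ (P n) (P n) := pderiv (Sum.inl k)

/-- The data of a left-invariant Hermitian structure in a unitary frame. -/
structure Data (n : ℕ) where
  /-- the connection matrices -/
  D : Fin n → Matrix (Fin n) (Fin n) ℂ
  /-- the structure constants of the bracket of `V` -/
  B : Fin n → Fin n → Fin n → ℂ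
  anti : ∀ x y k, B x y k = -B y x k
  /-- `[D_x, D_y] = D_{[x,y]}` -/
  rep : ∀ x y, D x * D y - D y * D x = ∑ k, B x y k • D k
  /-- `D_z^*[x,y] = [D_z^* x, y] + [x, D_z^* y] + D^*_{D_x^* z} y - D^*_{D_y^* z} x` -/
  jac : ∀ x y z k, ∑ l, star (D z l k) * B x y l =
    ∑ l, star (D z x l) * B l y k + ∑ l, star (D z y l) * B x l k
      + ∑ l, D x z l * star (D l y k) - ∑ l, D y z l * star (D l x k)

/-- unimodularity: `tr D_y = tr ad_y` on `V` -/
def Data.Unimodular {n : ℕ} (d : Data n) : Prop := ∀ y, (d.D y).trace = ∑ k, d.B y k k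

/-- the curvature `R(e_a, ē_b) = [D_b^*, D_a] - D_{D_b^* e_a} - D^*_{D_a^* e_b}` -/
noncomputable def Data.R {n : ℕ} (d : Data n) (a b : Fin n) : Matrix (Fin n) (Fin n) ℂ :=
  (d.D b)ᴴ * d.D a - d.D a * (d.D b)ᴴ - ∑ k, star (d.D b a k) • d.D k
    - ∑ k, d.D a b k • (d.D k)ᴴ

/-- the form `∑ i j, M i j x̄_i x_j` of a matrix -/
noncomputable def form {n : ℕ} (M : Matrix (Fin n) (Fin n) ℂ) : P n :=
  ∑ i, ∑ j, C (M i j) * (yy i * xx j)

/-- the derivation `ŷ` of `P n`: `ŷ x = - D_y x` and `ŷ x̄_k = ∑ m, (D_y)_{mk} x̄_m` -/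
noncomputable def hat {n : ℕ} (M : Matrix (Fin n) (Fin n) ℂ) : Derivation ℂ (P n) (P n) :=
  mkDerivation ℂ (Sum.elim (fun k => -∑ m, C (M k m) * xx m) (fun k => ∑ m, C (M m k) * yy m))

/-- `F_y = 1/2 <R(e_y, x̄) x, x> = 1/2 ∑_b x̄_b ∑_{i,j} R(e_y, ē_b)_{ij} x̄_i x_j` -/
noncomputable def Data.F {n : ℕ} (d : Data n) (y : Fin n) : P n :=
  C (1 / 2) * ∑ b, yy b * form (d.R y b)

/-- `J_{yz} = ∂_{x̄_z} F_y` -/
noncomputable def Data.J {n : ℕ} (d : Data n) : Matrix (Fin n) (Fin n) (P n) :=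
  fun y z => dY z (d.F y)

/-- `K_{yz} = κ(D_z^* e_y)` with `κ(u) = <D_u x, x>` -/
noncomputable def Data.K {n : ℕ} (d : Data n) : Matrix (Fin n) (Fin n) (P n) :=
  fun y z => ∑ k, C (star (d.D z y k)) * form (d.D k)

/-- the differential of a `0`-cochain: `(∂g)(y)_z = ŷ g_z + ∑ m, (D_y)_{zm} g_m` -/
noncomputable def Data.dd {n : ℕ} (d : Data n) (g : Fin n → P n) : Matrix (Fin n) (Fin n) (P n) :=
  fun y z => hat (d.D y) (g z) + ∑ m, C (d.D y z m) * g m

/-- `g_z = k_z - 1/2 U_z`, `k_z = <x, D_z x>`, `U_z = <x, T(z,x)>` where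
`T(z,i)_j = (D z j i) - (D i j z) - B z i j` -/
noncomputable def Data.gg {n : ℕ} (d : Data n) (z : Fin n) : P n :=
  form ((d.D z)ᴴ) - C (1 / 2) * form (fun i j => star (d.D z j i - d.D i j z - d.B z i j))

/-- a matrix over `P n` (rows indexed by the first, form index) is a `1`-cocycle -/
def Data.Cocycle {n : ℕ} (d : Data n) (A : Matrix (Fin n) (Fin n) (P n)) : Prop :=
  ∀ y y' z, hat (d.D y) (A y' z) - hat (d.D y') (A y z) + ∑ m, C (d.D y z m) * A y' m
    - ∑ m, C (d.D y' z m) * A y m = ∑ k, C (d.B y y' k) * A k z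

end Pool.Agent.Lib.ThZ
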