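import Pool.Agent.Lib.ThZ.Z0

/-! # The derivations `hat M` -/

open MvPolynomial Matrix Finset

namespace Pool.Agent.Lib.ThZ

variable {n : ℕ}

theorem hat_xx (M : Matrix (Fin n) (Fin n) ℂ) (k : Fin n) :
    hat M (xx k : P n) = -∑ m, C (M k m) * xx m := by
  unfold hat xx
  rw [mkDerivation_X]; rfl

theorem hat_yy (M : Matrix (Fin n) (Fin n) ℂ) (k : Fin n) :
    hat M (yy k : P n) = ∑ m, C (M m k) * yy m := by
  unfold hat yy
  rw [mkDerivation_X]; rfl

/-- commutator of two of the derivations: check on the variables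
(`MvPolynomial.derivation_ext` for the commutator bracket `⁅hat M, hat N⁆` of derivations). -/
theorem hat_comm (M N : Matrix (Fin n) (Fin n) ℂ) (f : P n) :
    hat M (hat N f) - hat N (hat M f) = hat (M * N - N * M) f := by
  have key : (⁅hat M, hat N⁆ : Derivation ℂ (P n) (P n)) = hat (M * N - N * M) := by
    apply MvPolynomial.derivation_ext
    rintro (k | k)
    · change hat M (hat N (xx k)) - hat N (hat M (xx k)) = hat (M * N - N * M) (xx k)
      simp only [hat_xx, map_neg, map_sum, Derivation.leibniz, smul_eq_mul,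
        MvPolynomial.derivation_C, mul_zero, add_zero, Matrix.sub_apply, Matrix.mul_apply,
        map_sub, map_mul, sub_mul, Finset.sum_mul, Finset.mul_sum, Finset.sum_sub_distrib,
        mul_neg, Finset.sum_neg_distrib, neg_neg, neg_sub]
      refine congrArg₂ (· - ·) ?_ ?_
      · rw [Finset.sum_comm]
        refine Finset.sum_congr rfl fun i _ => Finset.sum_congr rfl fun j _ => ?_
        exact (mul_assoc _ _ _).symm
      · rw [Finset.sum_comm]
        refine Finset.sum_congr rfl fun i _ => Finset.sum_congr rfl fun j _ => ?_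
        exact (mul_assoc _ _ _).symm
    · change hat M (hat N (yy k)) - hat N (hat M (yy k)) = hat (M * N - N * M) (yy k)
      simp only [hat_yy, map_sum, Derivation.leibniz, smul_eq_mul,
        MvPolynomial.derivation_C, mul_zero, add_zero, Matrix.sub_apply, Matrix.mul_apply,
        map_sub, map_mul, sub_mul, Finset.sum_mul, Finset.mul_sum, Finset.sum_sub_distrib]
      refine congrArg₂ (· - ·) ?_ ?_
      · rw [Finset.sum_comm]
        refine Finset.sum_congr rfl fun i _ => Finset.sum_congr rfl fun j _ => ?_
        rw [← mul_assoc, mul_comm (C (N _ _)) (C (M _ _))]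
      · rw [Finset.sum_comm]
        refine Finset.sum_congr rfl fun i _ => Finset.sum_congr rfl fun j _ => ?_
        rw [← mul_assoc, mul_comm (C (M _ _)) (C (N _ _))]
  have h := congrArg (fun D : Derivation ℂ (P n) (P n) => D f) key
  exact h

/-- linearity of `M ↦ hat M` (again `MvPolynomial.derivation_ext`). -/
theorem hat_sum (c : Fin n → ℂ) (M : Fin n → Matrix (Fin n) (Fin n) ℂ) (f : P n) :
    hat (∑ k, c k • M k) f = ∑ k, C (c k) * hat (M k) f := by
  have hsum : ∀ g : P n, (∑ k, c k • hat (M k) : Derivation ℂ (P n) (P n)) g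
      = ∑ k, C (c k) * hat (M k) g := by
    intro g
    have h1 : (⇑(∑ k, c k • hat (M k) : Derivation ℂ (P n) (P n)) : P n → P n)
        = ∑ k, ⇑(c k • hat (M k)) := map_sum Derivation.coeFnAddMonoidHom _ _
    rw [h1, Finset.sum_apply]
    refine Finset.sum_congr rfl fun k _ => ?_
    rw [Derivation.smul_apply, MvPolynomial.smul_eq_C_mul]
  have key : hat (∑ k, c k • M k) = ∑ k, c k • hat (M k) := by
    apply MvPolynomial.derivation_ext
    rintro (k | k)
    · change hat (∑ k, c k • M k) (xx k) = (∑ k, c k • hat (M k) : Derivation ℂ (P n) (P n)) (xx k)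
      rw [hsum, hat_xx]
      simp only [hat_xx, Matrix.sum_apply, Matrix.smul_apply, smul_eq_mul, map_sum, map_mul,
        Finset.sum_mul, Finset.mul_sum, mul_neg, Finset.sum_neg_distrib]
      rw [Finset.sum_comm]
      refine congrArg Neg.neg ?_
      refine Finset.sum_congr rfl fun i _ => Finset.sum_congr rfl fun j _ => ?_
      exact mul_assoc _ _ _
    · change hat (∑ k, c k • M k) (yy k) = (∑ k, c k • hat (M k) : Derivation ℂ (P n) (P n)) (yy k)
      rw [hsum, hat_yy]
      simp only [hat_yy, Matrix.sum_apply, Matrix.smul_apply, smul_eq_mul, map_sum, map_mul,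
        Finset.sum_mul, Finset.mul_sum]
      rw [Finset.sum_comm]
      refine Finset.sum_congr rfl fun i _ => Finset.sum_congr rfl fun j _ => ?_
      exact mul_assoc _ _ _
  rw [key, hsum]

theorem form_add (M N : Matrix (Fin n) (Fin n) ℂ) : form (M + N) = (form M + form N : P n) := by
  simp only [form, Matrix.add_apply, map_add, add_mul, Finset.sum_add_distrib]

theorem form_smul (c : ℂ) (M : Matrix (Fin n) (Fin n) ℂ) :
    form (c • M) = (C c * form M : P n) := by
  simp only [form, Matrix.smul_apply, smul_eq_mul, map_mul, Finset.mul_sum, mul_assoc]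

theorem form_sum (c : Fin n → ℂ) (M : Fin n → Matrix (Fin n) (Fin n) ℂ) :
    form (∑ k, c k • M k) = (∑ k, C (c k) * form (M k) : P n) := by
  simp only [form, Matrix.sum_apply, Matrix.smul_apply, smul_eq_mul, map_sum, map_mul,
    Finset.sum_mul, Finset.mul_sum]
  conv_rhs => rw [Finset.sum_comm]
  refine Finset.sum_congr rfl fun i _ => ?_
  rw [Finset.sum_comm]
  refine Finset.sum_congr rfl fun k _ => Finset.sum_congr rfl fun j _ => ?_
  exact mul_assoc _ _ _

theorem form_sub (M N : Matrix (Fin n) (Fin n) ℂ) : form (M - N) = (form M - form N : P n) := by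
  simp only [form, Matrix.sub_apply, map_sub, sub_mul, Finset.sum_sub_distrib]

/-- `ŷ` acts on the form of a matrix by the commutator. -/
theorem hat_form (M N : Matrix (Fin n) (Fin n) ℂ) :
    hat M (form N : P n) = form (M * N - N * M) := by
  have h1 : ∀ i j : Fin n, hat M (C (N i j) * (yy i * xx j) : P n)
      = (∑ m, C (M m i * N i j) * (yy m * xx j)) - ∑ m, C (N i j * M j m) * (yy i * xx m) := by
    intro i j
    rw [Derivation.leibniz, Derivation.leibniz, MvPolynomial.derivation_C, hat_xx, hat_yy]
    simp only [smul_eq_mul, mul_zero, add_zero, mul_add, mul_neg, Finset.mul_sum]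
    rw [add_comm, sub_eq_add_neg]
    refine congrArg₂ (· + ·) ?_ ?_
    · refine Finset.sum_congr rfl fun m _ => ?_
      rw [map_mul]; ring
    · congr 1
      refine Finset.sum_congr rfl fun m _ => ?_
      rw [map_mul]; ring
  unfold form
  rw [map_sum]
  simp only [map_sum, h1, Finset.sum_sub_distrib, Matrix.sub_apply, Matrix.mul_apply, map_sub,
    sub_mul, Finset.sum_mul]
  refine congrArg₂ (· - ·) ?_ ?_
  · -- `∑ i j m` of `M m i N i j y_m x_j`
    calc ∑ i, ∑ j, ∑ m, C (M m i * N i j) * (yy m * xx j : P n)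
        = ∑ i, ∑ m, ∑ j, C (M m i * N i j) * (yy m * xx j : P n) :=
          Finset.sum_congr rfl fun i _ => Finset.sum_comm
      _ = ∑ m, ∑ i, ∑ j, C (M m i * N i j) * (yy m * xx j : P n) := Finset.sum_comm
      _ = _ := Finset.sum_congr rfl fun m _ => Finset.sum_comm
  · refine Finset.sum_congr rfl fun i _ => ?_
    rw [Finset.sum_comm]

end Pool.Agent.Lib.ThZ
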