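import Pool.Agent.Lib.ThZ.Mg.G005

/-! # The data of a real Hermitian Lie algebra -/

open Module Finset Matrix
open scoped InnerProductSpace

namespace Pool.Agent.Lib.ThZ

open Pool.Agent.Lib.MP_a150d7_gt

variable {E : Type*} [NormedAddCommGroup E] [InnerProductSpace ℝ E] [FiniteDimensional ℝ E]
variable {br : E →ₗ[ℝ] E →ₗ[ℝ] E} {J : E →ₗ[ℝ] E} {n : ℕ}

private theorem Z15d_sum5 (F : Fin n → Fin n → Fin n → Fin n → Fin n → ℂ) :
    ∑ a, ∑ b, ∑ i, ∑ j, ∑ l, F a b i j l = ∑ l, ∑ a, ∑ b, ∑ i, ∑ j, F a b i j l := by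
  have e1 : ∀ a b i, ∑ j, ∑ l, F a b i j l = ∑ l, ∑ j, F a b i j l := fun a b i =>
    Finset.sum_comm
  have e2 : ∀ a b, ∑ i, ∑ j, ∑ l, F a b i j l = ∑ l, ∑ i, ∑ j, F a b i j l := fun a b => by
    rw [Finset.sum_comm (f := fun l i => ∑ j, F a b i j l)]
    exact Finset.sum_congr rfl fun i _ => e1 a b i
  have e3 : ∀ a, ∑ b, ∑ i, ∑ j, ∑ l, F a b i j l = ∑ l, ∑ b, ∑ i, ∑ j, F a b i j l :=
    fun a => by
    rw [Finset.sum_comm (f := fun l b => ∑ i, ∑ j, F a b i j l)]
    exact Finset.sum_congr rfl fun b _ => e2 a b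
  rw [Finset.sum_comm (f := fun l a => ∑ b, ∑ i, ∑ j, F a b i j l)]
  exact Finset.sum_congr rfl fun a _ => e3 a

/-- `∑ u a b * w i j` -/
private theorem Z15d_factA (u w : Fin n → Fin n → ℂ) :
    ∑ a, ∑ b, ∑ i, ∑ j, u a b * w i j = (∑ a, ∑ b, u a b) * ∑ i, ∑ j, w i j := by
  rw [Finset.sum_mul]
  refine Finset.sum_congr rfl fun a _ => ?_
  rw [Finset.sum_mul]
  refine Finset.sum_congr rfl fun b _ => ?_
  rw [Finset.mul_sum]
  refine Finset.sum_congr rfl fun i _ => ?_
  rw [Finset.mul_sum]

/-- `∑ u a i * w b j` -/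
private theorem Z15d_factB (u w : Fin n → Fin n → ℂ) :
    ∑ a, ∑ b, ∑ i, ∑ j, u a i * w b j = (∑ a, ∑ i, u a i) * ∑ b, ∑ j, w b j := by
  rw [← Z15d_factA]
  exact Finset.sum_congr rfl fun a _ => Finset.sum_comm

/-- `∑ u b i * w a j` -/
private theorem Z15d_factC (u w : Fin n → Fin n → ℂ) :
    ∑ a, ∑ b, ∑ i, ∑ j, u b i * w a j = (∑ b, ∑ i, u b i) * ∑ a, ∑ j, w a j := by
  rw [← Z15d_factB, Finset.sum_comm]

/-- `star_fD` for arbitrary vectors. -/
private theorem Z15d_star (h : HermLie br J) (f : Frame J n) (z : E) (y k : Fin n) :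
    star (f.co y (-At (Ac br J) z (f.e k))) = f.co k (-Ac br J z (f.e y)) := by
  have h1 : ⟪At (Ac br J) z (f.e k), f.e y⟫_ℝ = ⟪Ac br J z (f.e y), f.e k⟫_ℝ := by
    rw [inner_At, real_inner_comm]
  have h2 : ⟪At (Ac br J) z (f.e k), J (f.e y)⟫_ℝ = -⟪Ac br J z (f.e y), J (f.e k)⟫_ℝ := by
    rw [inner_At, h.chern.A2, real_inner_comm, h.innerJ]
  unfold Frame.co
  apply Complex.ext
  · change ⟪-At (Ac br J) z (f.e k), f.e y⟫_ℝ = ⟪-Ac br J z (f.e y), f.e k⟫_ℝ
    rw [inner_neg_left, inner_neg_left, h1]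
  · change -⟪-At (Ac br J) z (f.e k), J (f.e y)⟫_ℝ = ⟪-Ac br J z (f.e y), J (f.e k)⟫_ℝ
    rw [inner_neg_left, inner_neg_left, h2]
    ring

/-- `A` in coordinates. -/
private theorem Z15d_A (h : HermLie br J) (f : Frame J n) (u v : E) (k : Fin n) :
    f.co k (-Ac br J u v) =
      ∑ b, ∑ i, star (f.co b u) * f.co i v * star (fD br f b i k) := by
  have h1 := f.co_linear h.JJ h.isoJ (Ac br J u) (fun w => h.chern.A2 u w) k v
  have h2 : ∀ i, f.co k (Ac br J u (f.e i)) = ∑ b, star (f.co b u) *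
      f.co k (Ac br J (f.e b) (f.e i)) := fun i =>
    f.co_conj_linear h.JJ h.isoJ ((Ac br J).flip (f.e i))
      (fun w => h.chern.A1 w (f.e i)) k u
  rw [f.co_neg, h1, ← Finset.sum_neg_distrib, Finset.sum_comm]
  refine Finset.sum_congr rfl fun i _ => ?_
  rw [h2, Finset.mul_sum, ← Finset.sum_neg_distrib]
  refine Finset.sum_congr rfl fun b _ => ?_
  rw [star_fD h, f.co_neg]
  ring

/-- `At` in coordinates. -/
private theorem Z15d_At (h : HermLie br J) (f : Frame J n) (u v : E) (k : Fin n) :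
    f.co k (-At (Ac br J) u v) =
      ∑ a, ∑ j, f.co a u * f.co j v * fD br f a k j := by
  have h1 := f.co_linear h.JJ h.isoJ (At (Ac br J) u) (fun w => h.chern.At2 u w) k v
  have h2 : ∀ j, f.co k (-At (Ac br J) u (f.e j)) = ∑ a, f.co a u * fD br f a k j := by
    intro j
    apply star_injective
    rw [Z15d_star h, Z15d_A h, star_sum]
    refine Finset.sum_congr rfl fun a _ => ?_
    rw [Finset.sum_eq_single k]
    · rw [f.co_e, if_pos rfl, star_mul']
      ring
    · intro i _ hik
      rw [f.co_e, if_neg (Ne.symm hik)]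
      ring
    · intro hk
      exact (hk (Finset.mem_univ k)).elim
  rw [f.co_neg, h1, ← Finset.sum_neg_distrib, Finset.sum_comm]
  refine Finset.sum_congr rfl fun j _ => ?_
  rw [← mul_neg, ← f.co_neg, h2, Finset.mul_sum]
  exact Finset.sum_congr rfl fun a _ => by ring

/-- norms in coordinates. -/
private theorem Z15d_norm (f : Frame J n) (w : E) :
    ∑ l, star (f.co l w) * f.co l w = ((‖w‖ ^ 2 : ℝ) : ℂ) := by
  have h1 := f.inner_eq w w
  rw [real_inner_self_eq_norm_sq] at h1
  have h2 : ∑ l, star (f.co l w) * f.co l w = ((∑ l, Complex.normSq (f.co l w) : ℝ) : ℂ) := by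
    rw [Complex.ofReal_sum]
    refine Finset.sum_congr rfl fun l _ => ?_
    rw [Complex.normSq_eq_conj_mul_self]
    rfl
  have h3 : ∑ k, f.co k w * star (f.co k w) = ∑ l, star (f.co l w) * f.co l w :=
    Finset.sum_congr rfl fun k _ => mul_comm _ _
  rw [h3, h2, Complex.ofReal_re] at h1
  rw [h2, h1]

/-- the quartic form in coordinates: for `v = ∑ x_k e_k`,
`<R(v, v̄) v, v> = |D_v v|² - |D_v^* v|² - 2 Re <D_{D_v^* v} v, v> = Qf (Ac br J) v`. -/
theorem mkData_hsc (h : HermLie br J) (f : Frame J n) (x : Fin n → ℂ) :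
    ∑ a, ∑ b, ∑ i, ∑ j, x a * star (x b) * star (x i) * x j * (mkData h f).R a b i j =
      ((Qf (Ac br J) (f.vec x) : ℝ) : ℂ) := by
  set v : E := f.vec x with hv
  have hco : ∀ k, f.co k v = x k := fun k => f.co_vec h.JJ h.isoJ x k
  set D := fD br f with hD
  set p : E := -At (Ac br J) v v with hp
  set q : E := -Ac br J v v with hq
  have hP : ∀ k, f.co k p = ∑ a, ∑ j, x a * x j * D a k j := fun k => by
    rw [hp, Z15d_At h f v v k]
    simp only [hco]
    rfl
  have hQ : ∀ k, f.co k q = ∑ b, ∑ i, star (x b) * x i * star (D b i k) := fun k => by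
    rw [hq, Z15d_A h f v v k]
    simp only [hco]
    rfl
  have hPs : ∀ k, star (f.co k p) = ∑ b, ∑ i, star (x b) * star (x i) * star (D b k i) :=
    fun k => by
    rw [hP, star_sum]
    refine Finset.sum_congr rfl fun a _ => ?_
    rw [star_sum]
    refine Finset.sum_congr rfl fun j _ => ?_
    rw [star_mul', star_mul']
  have hQs : ∀ k, star (f.co k q) = ∑ a, ∑ i, x a * star (x i) * D a i k := fun k => by
    rw [hQ, star_sum]
    refine Finset.sum_congr rfl fun a _ => ?_
    rw [star_sum]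
    refine Finset.sum_congr rfl fun j _ => ?_
    rw [star_mul', star_mul', star_star, star_star]
  -- the four terms
  have T1 : ∑ a, ∑ b, ∑ i, ∑ j, x a * star (x b) * star (x i) * x j *
      ∑ l, star (D b l i) * D a l j = ((‖p‖ ^ 2 : ℝ) : ℂ) := by
    rw [← Z15d_norm f p]
    have e : ∀ a b i j, x a * star (x b) * star (x i) * x j * ∑ l, star (D b l i) * D a l j =
        ∑ l, (star (x b) * star (x i) * star (D b l i)) * (x a * x j * D a l j) := by
      intro a b i j
      rw [Finset.mul_sum]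
      exact Finset.sum_congr rfl fun l _ => by ring
    simp only [e]
    rw [Z15d_sum5]
    refine Finset.sum_congr rfl fun l _ => ?_
    rw [hPs, hP]
    exact Z15d_factC (fun b i => star (x b) * star (x i) * star (D b l i))
      (fun a j => x a * x j * D a l j)
  have T2 : ∑ a, ∑ b, ∑ i, ∑ j, x a * star (x b) * star (x i) * x j *
      ∑ l, D a i l * star (D b j l) = ((‖q‖ ^ 2 : ℝ) : ℂ) := by
    rw [← Z15d_norm f q]
    have e : ∀ a b i j, x a * star (x b) * star (x i) * x j * ∑ l, D a i l * star (D b j l) =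
        ∑ l, (x a * star (x i) * D a i l) * (star (x b) * x j * star (D b j l)) := by
      intro a b i j
      rw [Finset.mul_sum]
      exact Finset.sum_congr rfl fun l _ => by ring
    simp only [e]
    rw [Z15d_sum5]
    refine Finset.sum_congr rfl fun l _ => ?_
    rw [hQs, hQ]
    exact Z15d_factB (fun a i => x a * star (x i) * D a i l)
      (fun b j => star (x b) * x j * star (D b j l))
  have T3 : ∑ a, ∑ b, ∑ i, ∑ j, x a * star (x b) * star (x i) * x j *
      ∑ l, star (D b a l) * D l i j =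
      ∑ l, f.co l q * ∑ i, ∑ j, star (x i) * x j * D l i j := by
    have e : ∀ a b i j, x a * star (x b) * star (x i) * x j * ∑ l, star (D b a l) * D l i j =
        ∑ l, (star (x b) * x a * star (D b a l)) * (star (x i) * x j * D l i j) := by
      intro a b i j
      rw [Finset.mul_sum]
      exact Finset.sum_congr rfl fun l _ => by ring
    simp only [e]
    rw [Z15d_sum5]
    refine Finset.sum_congr rfl fun l _ => ?_
    rw [hQ, Finset.sum_comm (f := fun b i => star (x b) * x i * star (D b i l))]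
    exact Z15d_factA (fun a b => star (x b) * x a * star (D b a l))
      (fun i j => star (x i) * x j * D l i j)
  have T4 : ∑ a, ∑ b, ∑ i, ∑ j, x a * star (x b) * star (x i) * x j *
      ∑ l, D a b l * star (D l j i) =
      star (∑ l, f.co l q * ∑ i, ∑ j, star (x i) * x j * D l i j) := by
    have e : ∀ a b i j, x a * star (x b) * star (x i) * x j * ∑ l, D a b l * star (D l j i) =
        ∑ l, (x a * star (x b) * D a b l) * (star (x i) * x j * star (D l j i)) := by
      intro a b i j
      rw [Finset.mul_sum]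
      exact Finset.sum_congr rfl fun l _ => by ring
    simp only [e]
    rw [Z15d_sum5, star_sum]
    refine Finset.sum_congr rfl fun l _ => ?_
    rw [star_mul', hQs]
    have e2 : star (∑ i, ∑ j, star (x i) * x j * D l i j) =
        ∑ i, ∑ j, star (x i) * x j * star (D l j i) := by
      rw [star_sum, Finset.sum_comm (f := fun i j => star (x i) * x j * star (D l j i))]
      refine Finset.sum_congr rfl fun j _ => ?_
      rw [star_sum]
      refine Finset.sum_congr rfl fun i _ => ?_
      rw [star_mul', star_mul', star_star]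
      ring
    rw [e2]
    exact Z15d_factA (fun a b => x a * star (x b) * D a b l)
      (fun i j => star (x i) * x j * star (D l j i))
  have T3re : (∑ l, f.co l q * ∑ i, ∑ j, star (x i) * x j * D l i j).re =
      ⟪Ac br J (Ac br J v v) v, v⟫_ℝ := by
    have e1 : ∑ l, f.co l q * ∑ i, ∑ j, star (x i) * x j * D l i j =
        ∑ i, f.co i (-At (Ac br J) q v) * star (f.co i v) := by
      have e2 : ∀ i, f.co i (-At (Ac br J) q v) * star (f.co i v) =
          ∑ l, f.co l q * ∑ j, star (x i) * x j * D l i j := by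
        intro i
        rw [Z15d_At h f q v i, Finset.sum_mul]
        refine Finset.sum_congr rfl fun l _ => ?_
        rw [Finset.sum_mul, Finset.mul_sum]
        refine Finset.sum_congr rfl fun j _ => ?_
        rw [hco, hco]
        ring
      simp only [e2]
      rw [Finset.sum_comm]
      refine Finset.sum_congr rfl fun l _ => ?_
      rw [Finset.mul_sum]
    rw [e1, ← f.inner_eq, inner_neg_left, inner_At, hq, map_neg, LinearMap.neg_apply,
      inner_neg_right, neg_neg, real_inner_comm]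
  have hR : ∀ a b i j, (mkData h f).R a b i j = ∑ l, star (D b l i) * D a l j -
      ∑ l, D a i l * star (D b j l) - ∑ l, star (D b a l) * D l i j -
      ∑ l, D a b l * star (D l j i) := by
    intro a b i j
    change (((D b)ᴴ * D a - D a * (D b)ᴴ - ∑ k, star (D b a k) • D k
      - ∑ k, D a b k • (D k)ᴴ : Matrix (Fin n) (Fin n) ℂ)) i j = _
    rw [Matrix.sub_apply, Matrix.sub_apply, Matrix.sub_apply, Matrix.mul_apply,
      Matrix.mul_apply, Matrix.sum_apply, Matrix.sum_apply]
    rfl
  have hsum : ∑ a, ∑ b, ∑ i, ∑ j, x a * star (x b) * star (x i) * x j *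
      (mkData h f).R a b i j =
      ∑ a, ∑ b, ∑ i, ∑ j, x a * star (x b) * star (x i) * x j *
        ∑ l, star (D b l i) * D a l j -
      ∑ a, ∑ b, ∑ i, ∑ j, x a * star (x b) * star (x i) * x j *
        ∑ l, D a i l * star (D b j l) -
      ∑ a, ∑ b, ∑ i, ∑ j, x a * star (x b) * star (x i) * x j *
        ∑ l, star (D b a l) * D l i j -
      ∑ a, ∑ b, ∑ i, ∑ j, x a * star (x b) * star (x i) * x j *
        ∑ l, D a b l * star (D l j i) := by
    simp only [← Finset.sum_sub_distrib]
    refine Finset.sum_congr rfl fun a _ => Finset.sum_congr rfl fun b _ =>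
      Finset.sum_congr rfl fun i _ => Finset.sum_congr rfl fun j _ => ?_
    rw [hR]
    simp only [← Finset.sum_sub_distrib]
    rw [← mul_sub, ← mul_sub, ← mul_sub]
    simp only [← Finset.sum_sub_distrib]
  rw [hsum, T1, T2, T3, T4]
  generalize hW : ∑ l, f.co l q * ∑ i, ∑ j, star (x i) * x j * D l i j = W at *
  have hWre : W + star W = ((2 * ⟪Ac br J (Ac br J v v) v, v⟫_ℝ : ℝ) : ℂ) := by
    rw [← T3re]
    exact Complex.add_conj W
  have hpn : ‖p‖ = ‖At (Ac br J) v v‖ := norm_neg _
  have hqn : ‖q‖ = ‖Ac br J v v‖ := norm_neg _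
  rw [hpn, hqn, sub_sub _ W, hWre]
  unfold Qf
  push_cast
  ring

end Pool.Agent.Lib.ThZ
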