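import Pool.Agent.Lib.ThZ.Mg.G005
import Pool.Agent.Lib.ThZ.Mg.G006
import Pool.Agent.Lib.ThZ.Z15d
import Pool.Agent.Lib.MP_a150d7_gt.Mg.G001

/-! # The main theorem -/

open Module Finset Matrix
open scoped InnerProductSpace

namespace Pool.Agent.Lib.ThZ

open Pool.Agent.Lib.MP_a150d7_gt

section inner
variable {E : Type*} [NormedAddCommGroup E] [InnerProductSpace ℝ E] [FiniteDimensional ℝ E]
variable {br : E →ₗ[ℝ] E →ₗ[ℝ] E} {J : E →ₗ[ℝ] E}

theorem c_zero_inner [Nontrivial E] (h : HermLie br J)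
    (huni : ∀ x, LinearMap.trace ℝ E (br x) = 0) {c : ℝ}
    (hQ : ∀ x, Qf (Ac br J) x = c * ‖x‖ ^ 4) : c = 0 := by
  obtain ⟨n, ⟨f⟩⟩ := exists_frame J h.JJ h.isoJ
  have hn : 0 < n := by
    rcases Nat.eq_zero_or_pos n with h0 | h0
    · subst h0
      obtain ⟨x, hx⟩ := exists_ne (0 : E)
      exact absurd (by rw [f.span x]; simp) hx
    · exact h0
  have key := (mkData h f).core hn (mkData_unimodular h f huni) (c : ℂ) (fun x => by
    rw [mkData_hsc, hQ]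
    have h1 : ‖f.vec x‖ ^ 2 = (∑ k, x k * star (x k)).re := by
      rw [← real_inner_self_eq_norm_sq, f.inner_eq]
      simp only [f.co_vec h.JJ h.isoJ]
    have h2 : ((∑ k, x k * star (x k)).re : ℂ) = ∑ k, x k * star (x k) := by
      have : ∀ k, x k * star (x k) = ((Complex.normSq (x k) : ℝ) : ℂ) := fun k =>
        Complex.mul_conj (x k)
      simp only [this]
      rw [← Complex.ofReal_sum, Complex.ofReal_re]
    have h3 : ‖f.vec x‖ ^ 4 = (‖f.vec x‖ ^ 2) ^ 2 := by ring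
    rw [h3, h1, Complex.ofReal_mul, Complex.ofReal_pow, h2])
  exact_mod_cast key

end inner

/-- On a unimodular Hermitian Lie algebra a constant Chern holomorphic sectional curvature is
zero. -/
theorem c_zero_lie {𝔤 : Type*} [LieRing 𝔤] [LieAlgebra ℝ 𝔤] [FiniteDimensional ℝ 𝔤] [Nontrivial 𝔤]
    (g : 𝔤 →ₗ[ℝ] 𝔤 →ₗ[ℝ] ℝ) (J : 𝔤 →ₗ[ℝ] 𝔤) (hgJ : IsHermitianStructure g J)
    (huni : ∀ x : 𝔤, LinearMap.trace ℝ 𝔤 (LieAlgebra.ad ℝ 𝔤 x) = 0)
    (D : 𝔤 →ₗ[ℝ] 𝔤 →ₗ[ℝ] 𝔤) (hD : IsChernConnection g J D)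
    (c : ℝ) (hc : ∀ x, x ≠ 0 → holSec g J D x = c) : c = 0 := by
  let core : InnerProductSpace.Core ℝ 𝔤 :=
    { inner := fun x y => g x y
      conj_inner_symm := fun x y => by simp only [conj_trivial]; exact hgJ.symm y x
      re_inner_nonneg := fun x => by
        by_cases hx : x = 0
        · subst hx; simp
        · exact (hgJ.pos x hx).le
      add_left := fun x y z => by simp only [map_add, LinearMap.add_apply]
      smul_left := fun x y r => by simp only [map_smul, LinearMap.smul_apply, smul_eq_mul,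
        conj_trivial]
      definite := fun x hx => by
        by_contra hne
        exact absurd hx (hgJ.pos x hne).ne' }
  let i1 : NormedAddCommGroup 𝔤 := core.toNormedAddCommGroup
  let i2 : InnerProductSpace ℝ 𝔤 := InnerProductSpace.ofCore core.toCore
  have hin : ∀ x y : 𝔤, ⟪x, y⟫_ℝ = g x y := fun x y => rfl
  let br : 𝔤 →ₗ[ℝ] 𝔤 →ₗ[ℝ] 𝔤 := (LieAlgebra.ad ℝ 𝔤 : 𝔤 →ₗ[ℝ] Module.End ℝ 𝔤)
  have hbr : ∀ x y, br x y = ⁅x, y⁆ := fun x y => rfl
  have hH : HermLie br J :=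
    { self := fun x => by rw [hbr, lie_self]
      jacobi := fun x y z => by rw [hbr, hbr, hbr, hbr, hbr, hbr, leibniz_lie]
      JJ := hgJ.sq_J
      isoJ := fun x y => by rw [hin, hin, hgJ.invariant]
      integ := fun x y => by
        rw [hbr, hbr, hbr, hbr, map_add, ← add_assoc]; exact hgJ.integrable x y }
  have hT : ∀ x y, D (J x) y - D y (J x) - br (J x) y = D x (J y) - D (J y) x - br x (J y) :=
    fun x y => hD.torsion_type x y
  have hn : ∀ x : 𝔤, ‖x‖ ^ 4 = (g x x) ^ 2 := by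
    intro x
    have : ‖x‖ ^ 2 = g x x := by rw [← hin, real_inner_self_eq_norm_sq]
    rw [← this]; ring
  have hc' : ∀ x, ⟪D x (D (J x) (J x)) - D (J x) (D x (J x)) - D (br x (J x)) (J x), x⟫_ℝ =
      c * ‖x‖ ^ 4 := by
    intro x
    rw [hn]
    by_cases hx : x = 0
    · subst hx; simp
    · have h1 := hc x hx
      unfold holSec at h1
      have h2 := (hgJ.pos x hx).ne'
      rw [div_eq_iff (pow_ne_zero 2 h2)] at h1
      exact h1
  have hQ : ∀ x, Qf (Ac br J) x = (c / 2) * ‖x‖ ^ 4 := by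
    intro x
    have h1 := hc' x
    rw [hH.curv_hol (fun x y z => hD.metric x y z) hD.complex hT] at h1
    linarith
  have := c_zero_inner hH (fun x => huni x) hQ
  linarith

/-- Flatness for the chain class, without solvability. -/
theorem chain_flat {𝔤 : Type*} [LieRing 𝔤] [LieAlgebra ℝ 𝔤] [FiniteDimensional ℝ 𝔤]
    [Nontrivial 𝔤]
    (g : 𝔤 →ₗ[ℝ] 𝔤 →ₗ[ℝ] ℝ) (J : 𝔤 →ₗ[ℝ] 𝔤) (hgJ : IsHermitianStructure g J)
    (hNS : ∀ k, jChain J (k + 1) = jChain J k → jChain J k ≠ ⊥ →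
      siegelPart J (jChain J k) ≠ jChain J k)
    (D : 𝔤 →ₗ[ℝ] 𝔤 →ₗ[ℝ] 𝔤) (hD : IsChernConnection g J D)
    (c : ℝ) (hsign : 0 ≤ c ∨ ∀ x : 𝔤, LinearMap.trace ℝ 𝔤 (LieAlgebra.ad ℝ 𝔤 x) = 0)
    (hc : ∀ x, x ≠ 0 → holSec g J D x = c) :
    c = 0 ∧ ∀ x y z, curv D x y z = 0 := by
  have h0 : 0 ≤ c := by
    rcases hsign with h | h
    · exact h
    · exact (c_zero_lie g J hgJ h D hD c hc).ge
  exact s_main_lie g J hgJ hNS D hD c (Or.inl h0) hc

end Pool.Agent.Lib.ThZ
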