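import Pool.Agent.Lib.MP_a150d7_gt.Final
import Pool.Agent.Lib.ThZ.Z0

/-! # From a real Hermitian Lie algebra to the data in a unitary frame -/

open Module Finset Matrix
open scoped InnerProductSpace

namespace Pool.Agent.Lib.ThZ

open Pool.Agent.Lib.MP_a150d7_gt

variable {E : Type*} [NormedAddCommGroup E] [InnerProductSpace ℝ E] [FiniteDimensional ℝ E]

/-- a unitary frame of `(E, J)` -/
structure Frame (J : E →ₗ[ℝ] E) (n : ℕ) where
  e : Fin n → E
  orth : ∀ i j, ⟪e i, e j⟫_ℝ = if i = j then 1 else 0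
  orthJ : ∀ i j, ⟪e i, J (e j)⟫_ℝ = 0
  span : ∀ x, x = ∑ k, (⟪x, e k⟫_ℝ • e k + ⟪x, J (e k)⟫_ℝ • J (e k))

namespace Frame

variable {J : E →ₗ[ℝ] E} {n : ℕ} (f : Frame J n)

/-- the complex coordinates -/
noncomputable def co (k : Fin n) (x : E) : ℂ := ⟨⟪x, f.e k⟫_ℝ, ⟪x, J (f.e k)⟫_ℝ⟩

/-- the vector with given complex coordinates -/
noncomputable def vec (t : Fin n → ℂ) : E := ∑ k, ((t k).re • f.e k + (t k).im • J (f.e k))

theorem co_add (k : Fin n) (x y : E) : f.co k (x + y) = f.co k x + f.co k y := by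
  exact Complex.ext (inner_add_left _ _ _) (inner_add_left _ _ _)

theorem co_smul (k : Fin n) (a : ℝ) (x : E) : f.co k (a • x) = a * f.co k x := by
  apply Complex.ext
  · rw [Complex.re_ofReal_mul]
    exact real_inner_smul_left _ _ _
  · rw [Complex.im_ofReal_mul]
    exact real_inner_smul_left _ _ _

theorem co_neg (k : Fin n) (x : E) : f.co k (-x) = -f.co k x := by
  exact Complex.ext (inner_neg_left _ _) (inner_neg_left _ _)

theorem co_sub (k : Fin n) (x y : E) : f.co k (x - y) = f.co k x - f.co k y := by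
  exact Complex.ext (inner_sub_left _ _ _) (inner_sub_left _ _ _)

theorem co_J (hJJ : ∀ x, J (J x) = -x) (hiso : ∀ x y, ⟪J x, J y⟫_ℝ = ⟪x, y⟫_ℝ) (k : Fin n)
    (x : E) : f.co k (J x) = Complex.I * f.co k x := by
  apply Complex.ext
  · rw [Complex.I_mul_re]
    show ⟪J x, f.e k⟫_ℝ = -⟪x, J (f.e k)⟫_ℝ
    rw [← hiso (J x) (f.e k), hJJ, inner_neg_left]
  · rw [Complex.I_mul_im]
    exact hiso x (f.e k)

theorem co_e (k j : Fin n) : f.co k (f.e j) = if j = k then 1 else 0 := by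
  apply Complex.ext
  · show ⟪f.e j, f.e k⟫_ℝ = _
    rw [f.orth]
    split_ifs <;> simp
  · show ⟪f.e j, J (f.e k)⟫_ℝ = _
    rw [f.orthJ]
    split_ifs <;> simp

theorem co_vec (hJJ : ∀ x, J (J x) = -x) (hiso : ∀ x y, ⟪J x, J y⟫_ℝ = ⟪x, y⟫_ℝ)
    (t : Fin n → ℂ) (k : Fin n) : f.co k (f.vec t) = t k := by
  have h1 : f.co k (f.vec t) = ∑ j, f.co k ((t j).re • f.e j + (t j).im • J (f.e j)) :=
    map_sum (AddMonoidHom.mk' (f.co k) (f.co_add k)) _ _
  rw [h1]
  have h2 : ∀ j, f.co k ((t j).re • f.e j + (t j).im • J (f.e j)) = if j = k then t j else 0 := by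
    intro j
    rw [f.co_add, f.co_smul, f.co_smul, f.co_J hJJ hiso, f.co_e]
    split_ifs with h
    · rw [mul_one, mul_one]
      exact Complex.re_add_im (t j)
    · rw [mul_zero, mul_zero, mul_zero, add_zero]
  rw [Finset.sum_congr rfl fun j _ => h2 j, Finset.sum_ite_eq', if_pos (Finset.mem_univ k)]

theorem vec_co (x : E) : f.vec (fun k => f.co k x) = x := by
  exact (f.span x).symm

theorem co_ext {x y : E} (h : ∀ k, f.co k x = f.co k y) : x = y := by
  rw [← f.vec_co x, ← f.vec_co y]; congr 1; ext1 k; exact h k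

end Frame

end Pool.Agent.Lib.ThZ
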