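import Pool.Agent.Lib.ThZ.Z0

/-! # Unimodularity: `det L_u = 0` -/

open MvPolynomial Matrix Finset

namespace Pool.Agent.Lib.ThZ

variable {n : ℕ}

/-- `L_u` is the matrix of `z ↦ D_z u`. -/
def Data.L (d : Data n) (u : Fin n → ℂ) : Matrix (Fin n) (Fin n) ℂ :=
  fun i z => ∑ k, d.D z i k * u k

private theorem Z6_L_apply (d : Data n) (u : Fin n → ℂ) (i z : Fin n) :
    d.L u i z = (d.D z *ᵥ u) i := rfl

/-- one basis vector -/
private theorem Z6_single (d : Data n) (u : Fin n → ℂ) (i : Fin n) :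
    d.D i * d.L u - d.L u * (Matrix.of fun k z => d.B i z k) = d.L (d.D i *ᵥ u) := by
  ext a z
  have h1 := congrArg (fun M : Matrix (Fin n) (Fin n) ℂ => (M *ᵥ u) a) (d.rep i z)
  simp only [Matrix.sub_mulVec, Pi.sub_apply, ← Matrix.mulVec_mulVec, Matrix.sum_mulVec,
    Finset.sum_apply, Matrix.smul_mulVec, Pi.smul_apply, smul_eq_mul] at h1
  rw [Matrix.sub_apply, Matrix.mul_apply, Matrix.mul_apply, Z6_L_apply]
  have h2 : ∑ j, d.D i a j * d.L u j z = (d.D i *ᵥ (d.D z *ᵥ u)) a := rfl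
  have h3 : ∑ j, d.L u a j * (Matrix.of fun k z => d.B i z k) j z =
      ∑ k, d.B i z k * (d.D k *ᵥ u) a := by
    refine Finset.sum_congr rfl fun j _ => ?_
    rw [Z6_L_apply, Matrix.of_apply, mul_comm]
  rw [h2, h3, ← h1]
  ring

/-- `D_y L_u - L_u ad_y = L_{D_y u}` for `y = ∑ t_i e_i` (from `d.rep`; here
`ad_y = ∑_i t_i (k, z ↦ B i z k)`). -/
theorem Data.L_comm (d : Data n) (u t : Fin n → ℂ) :
    (∑ i, t i • d.D i) * d.L u - d.L u * (∑ i, t i • (Matrix.of fun k z => d.B i z k)) =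
      d.L ((∑ i, t i • d.D i) *ᵥ u) := by
  have h1 : d.L ((∑ i, t i • d.D i) *ᵥ u) = ∑ i, t i • d.L (d.D i *ᵥ u) := by
    ext a z
    rw [Z6_L_apply, Matrix.sum_mulVec, Matrix.mulVec_sum, Matrix.sum_apply, Finset.sum_apply]
    refine Finset.sum_congr rfl fun i _ => ?_
    rw [Matrix.smul_mulVec, Matrix.mulVec_smul, Matrix.smul_apply, Z6_L_apply, Pi.smul_apply]
  rw [h1, Matrix.sum_mul, Matrix.mul_sum, ← Finset.sum_sub_distrib]
  refine Finset.sum_congr rfl fun i _ => ?_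
  rw [Matrix.smul_mul, Matrix.mul_smul, ← smul_sub, Z6_single]

/-- In the unimodular case `L_u` is never invertible.  Proof: if `det L_u ≠ 0` choose `t` with
`L_u t = u`, i.e. `D_y u = u` for `y = ∑ t_i e_i`.  By `L_comm`, `D_y L_u - L_u ad_y = L_u`, so
`D_y - L_u ad_y L_u⁻¹ = 1`; traces: `tr D_y - tr ad_y = n`, contradiction. -/
theorem Data.det_L (d : Data n) (hn : 0 < n) (hu : d.Unimodular) (u : Fin n → ℂ) :
    (d.L u).det = 0 := by
  by_contra hdet
  have hunit : IsUnit (d.L u).det := isUnit_iff_ne_zero.2 hdet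
  set t : Fin n → ℂ := (d.L u)⁻¹ *ᵥ u with ht
  have hLt : d.L u *ᵥ t = u := by
    rw [ht, Matrix.mulVec_mulVec, Matrix.mul_nonsing_inv _ hunit, Matrix.one_mulVec]
  have hDu : (∑ i, t i • d.D i) *ᵥ u = u := by
    rw [Matrix.sum_mulVec]
    conv_rhs => rw [← hLt]
    ext a
    rw [Finset.sum_apply, Matrix.mulVec, dotProduct]
    refine Finset.sum_congr rfl fun i _ => ?_
    rw [Matrix.smul_mulVec, Pi.smul_apply, smul_eq_mul, Z6_L_apply, mul_comm]
  have hcomm := d.L_comm u t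
  rw [hDu] at hcomm
  have h1 := congrArg (fun M => (M * (d.L u)⁻¹).trace) hcomm
  simp only [Matrix.sub_mul, Matrix.trace_sub] at h1
  rw [Matrix.mul_nonsing_inv _ hunit, Matrix.mul_assoc, Matrix.mul_nonsing_inv _ hunit,
    Matrix.mul_one, Matrix.trace_mul_comm, ← Matrix.mul_assoc, Matrix.nonsing_inv_mul _ hunit,
    Matrix.one_mul, Matrix.trace_one, Fintype.card_fin, Matrix.trace_sum, Matrix.trace_sum,
    ← Finset.sum_sub_distrib] at h1
  have h2 : ∑ i, ((t i • d.D i).trace - (t i • (Matrix.of fun k z => d.B i z k)).trace) = 0 := by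
    refine Finset.sum_eq_zero fun i _ => ?_
    rw [Matrix.trace_smul, Matrix.trace_smul, hu i, ← smul_sub]
    simp [Matrix.trace]
  rw [h2] at h1
  exact absurd h1.symm (by exact_mod_cast hn.ne')

end Pool.Agent.Lib.ThZ
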