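import Pool.Agent.Lib.ThZ.Z2

/-! # The identity `J = -K - ∂g`: forms -/

open MvPolynomial Matrix Finset

namespace Pool.Agent.Lib.ThZ

variable {n : ℕ}

/-- `J_{yz}` in coordinates: `J_{yz} = 1/2 ∑_{i,j} (R_{yz}[i,j] + R_{yi}[z,j]) x̄_i x_j`. -/
theorem Data.J_form (d : Data n) (y z : Fin n) :
    d.J y z = form ((1 / 2 : ℂ) • (d.R y z + Matrix.of fun i j => d.R y i z j)) := by
  have hx : ∀ m : Fin n, dY z (xx m : P n) = 0 := by
    intro m
    unfold dY xx
    rw [pderiv_X_of_ne]
    simp
  have hy : ∀ m : Fin n, dY z (yy m : P n) = if m = z then 1 else 0 := by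
    intro m
    unfold dY yy
    by_cases h : m = z
    · subst h
      rw [pderiv_X_self, if_pos rfl]
    · rw [pderiv_X_of_ne (by simpa using fun h' : m = z => h h'), if_neg h]
  have hform : ∀ M : Matrix (Fin n) (Fin n) ℂ, dY z (form M : P n) = ∑ j, C (M z j) * xx j := by
    intro M
    unfold form
    rw [map_sum]
    have h1 : ∀ i : Fin n, dY z (∑ j, C (M i j) * (yy i * xx j) : P n)
        = if i = z then ∑ j, C (M i j) * xx j else 0 := by
      intro i
      rw [map_sum]
      have h2 : ∀ j : Fin n, dY z (C (M i j) * (yy i * xx j) : P n)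
          = if i = z then C (M i j) * xx j else 0 := by
        intro j
        rw [Derivation.leibniz, Derivation.leibniz, MvPolynomial.derivation_C, hx, hy]
        by_cases h : i = z
        · simp only [h, if_true, smul_eq_mul, mul_zero, mul_one, zero_add, add_zero]
        · simp only [h, if_false, smul_eq_mul, mul_zero, add_zero]
      simp only [h2]
      by_cases h : i = z
      · simp only [h, if_true]
      · simp only [h, if_false, Finset.sum_const_zero]
    simp only [h1]
    rw [Finset.sum_ite_eq' Finset.univ z, if_pos (Finset.mem_univ z)]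
  have hF : d.J y z = C (1 / 2) * ∑ b, (yy b * (∑ j, C (d.R y b z j) * xx j)
      + form (d.R y b) * (if b = z then 1 else 0)) := by
    unfold Data.J Data.F
    rw [Derivation.leibniz, MvPolynomial.derivation_C, smul_zero, add_zero, smul_eq_mul, map_sum]
    refine congrArg (fun t => C (1 / 2) * t) (Finset.sum_congr rfl fun b _ => ?_)
    rw [Derivation.leibniz, hform, hy, smul_eq_mul, smul_eq_mul]
  rw [hF, form_smul, form_add, Finset.sum_add_distrib]
  refine congrArg (fun t => C (1 / 2) * t) ?_
  rw [add_comm]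
  refine congrArg₂ (· + ·) ?_ ?_
  · simp only [mul_ite, mul_one, mul_zero]
    rw [Finset.sum_ite_eq' Finset.univ z, if_pos (Finset.mem_univ z)]
  · unfold form
    refine Finset.sum_congr rfl fun i _ => ?_
    rw [Finset.mul_sum]
    refine Finset.sum_congr rfl fun j _ => ?_
    rw [Matrix.of_apply, mul_left_comm]

theorem Data.K_form (d : Data n) (y z : Fin n) :
    d.K y z = form (∑ k, star (d.D z y k) • d.D k) := by
  rw [form_sum]
  rfl

/-- the matrix of `gg z` -/
noncomputable def Data.G (d : Data n) (z : Fin n) : Matrix (Fin n) (Fin n) ℂ :=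
  (d.D z)ᴴ - (1 / 2 : ℂ) • (Matrix.of fun i j => star (d.D z j i - d.D i j z - d.B z i j))

theorem Data.gg_form (d : Data n) (z : Fin n) : d.gg z = form (d.G z) := by
  unfold Data.gg Data.G
  rw [form_sub, form_smul]
  rfl

theorem Data.dd_form (d : Data n) (y z : Fin n) :
    d.dd d.gg y z = form (d.D y * d.G z - d.G z * d.D y + ∑ m, d.D y z m • d.G m) := by
  unfold Data.dd
  rw [form_add, form_sum, ← hat_form]
  refine congrArg₂ (· + ·) ?_ ?_
  · rw [Data.gg_form]
  · refine Finset.sum_congr rfl fun m _ => ?_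
    rw [Data.gg_form]

end Pool.Agent.Lib.ThZ
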